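import Pool.Agent.H336R5.PS.Defs
set_option autoImplicit false

/-!
The mean of the modulus of `1 + F`: task E2 of the project `PSUM`.
-/

namespace Pool.Agent.H299R5.PS

open Filter Topology MeasureTheory Pool.Agent.H336R5.PS

lemma cont_u (p : ℕ) : Continuous (u p) := by
  unfold u
  fun_prop

lemma u_nonneg (p : ℕ) (t : ℝ) : 0 ≤ u p t := by
  unfold u
  have := Real.neg_one_le_cos (t * Real.log p)
  linarith

lemma f_nonneg (P : Finset ℕ) (t : ℝ) : 0 ≤ f P t :=
  Finset.prod_nonneg fun p _ => u_nonneg p t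

lemma cont_W (P : Finset ℕ) : Continuous (W P) := by
  unfold W
  refine continuous_finsetSum _ fun p _ => ?_
  refine Continuous.mul (continuous_finsetProd _ fun q _ => cont_u q) ?_
  have := cont_u p
  fun_prop

lemma cont_F (P : Finset ℕ) : Continuous (F P) := by
  unfold F
  refine continuous_const.add (continuous_const.mul ?_)
  refine continuous_finsetSum _ fun x _ => ?_
  fun_prop

lemma D_pos (P : Finset ℕ) (hP : ∀ p ∈ P, p.Prime) (U : Finset ℕ) (hU : U ⊆ P) : 0 < D U :=
  Finset.prod_pos fun p hp => (hP p (hU hp)).pos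

lemma bound_F (P : Finset ℕ) : ∃ C : ℝ, ∀ t, ‖1 + F P t‖ ≤ C := by
  refine ⟨1 + (1 + ‖(2 * (1 / 2 : ℂ) ^ P.card)‖ *
    ((((P.powerset ×ˢ P.powerset).filter (fun x => D x.1 < D x.2)).card : ℝ))), fun t => ?_⟩
  unfold F
  refine (norm_add_le _ _).trans ?_
  rw [norm_one]
  gcongr
  refine (norm_add_le _ _).trans ?_
  rw [norm_one, norm_mul]
  gcongr
  refine (norm_sum_le _ _).trans ?_
  refine (Finset.sum_le_sum (g := fun _ => (1 : ℝ)) fun x _ => ?_).trans (by simp)
  rw [mul_comm, Complex.norm_exp_ofReal_mul_I]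

theorem taskE2 (hA2 : TaskA2) (hB : TaskB) (hC : TaskC) (hD : TaskD) (hE : TaskE) : TaskE2 := by
  intro P hP
  have hre : ∀ t, 0 ≤ (F P t).re := fun t => by rw [hE P hP t]; exact f_nonneg P t
  have hslit : ∀ t, 1 + F P t ∈ Complex.slitPlane := fun t => by
    left
    simp only [Complex.add_re, Complex.one_re]
    linarith [hre t]
  have hcG : Continuous (fun t => F P t * Complex.log (1 + F P t)) :=
    (cont_F P).mul ((continuous_const.add (cont_F P)).clog hslit)
  have h1 : HasMean (fun t => F P t * Complex.log (1 + F P t)) (Real.log 2) := by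
    refine hC (Finset ℕ × Finset ℕ)
      ((P.powerset ×ˢ P.powerset).filter (fun x => D x.1 < D x.2))
      (fun _ => 2 * (1 / 2 : ℂ) ^ P.card)
      (fun x => Real.log (D x.2) - Real.log (D x.1)) (F P) ?_ ?_ hre
    · intro x hx
      rw [Finset.mem_filter, Finset.mem_product, Finset.mem_powerset, Finset.mem_powerset] at hx
      have h0 := D_pos P hP x.1 hx.1.1
      have : Real.log (D x.1) < Real.log (D x.2) :=
        Real.log_lt_log (by exact_mod_cast h0) (by exact_mod_cast hx.2)
      linarith
    · intro t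
      unfold F
      rw [Finset.mul_sum]
  have h2 := hA2 P hP
  have hcW := cont_W P
  -- real mean of the difference
  have h3 : Tendsto (fun T : ℝ => (1 / (2 * T)) *
      ∫ t in (-T)..T, (W P t - (F P t * Complex.log (1 + F P t)).re)) atTop
      (𝓝 ((P.card : ℝ) / 12 - Real.log 2)) := by
    have h4 := (Complex.continuous_re.tendsto _).comp (h2.sub h1)
    have e : (((P.card : ℂ) / 12 - (Real.log 2 : ℝ)) : ℂ).re = (P.card : ℝ) / 12 - Real.log 2 := by
      have : ((P.card : ℂ) / 12 - (Real.log 2 : ℝ)) =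
        (((P.card : ℝ) / 12 - Real.log 2 : ℝ) : ℂ) := by push_cast; ring
      rw [this, Complex.ofReal_re]
    rw [e] at h4
    refine h4.congr fun T => ?_
    simp only [Function.comp]
    have hc : (1 / (2 * (T : ℂ))) = ((1 / (2 * T) : ℝ) : ℂ) := by push_cast; ring
    rw [hc, Complex.sub_re, Complex.re_ofReal_mul, Complex.re_ofReal_mul, ← mul_sub]
    congr 1
    have i1 : (∫ t in (-T)..T, (W P t : ℂ)).re = ∫ t in (-T)..T, W P t := by
      rw [intervalIntegral.integral_ofReal, Complex.ofReal_re]
    have i2 : (∫ t in (-T)..T, F P t * Complex.log (1 + F P t)).re =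
        ∫ t in (-T)..T, (F P t * Complex.log (1 + F P t)).re := by
      have := Complex.reCLM.intervalIntegral_comp_comm (μ := volume)
        (hcG.intervalIntegrable (-T) T)
      simpa using this.symm
    have hcR : Continuous (fun t => (F P t * Complex.log (1 + F P t)).re) :=
      Complex.continuous_re.comp hcG
    rw [i1, i2]
    exact (intervalIntegral.integral_sub (hcW.intervalIntegrable _ _)
      (hcR.intervalIntegrable _ _)).symm
  have hpt : ∀ t, W P t - (F P t * Complex.log (1 + F P t)).re ≤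
      Real.pi / 2 * ‖1 + F P t‖ := by
    intro t
    have a1 := hB P t
    have a2 := hD (F P t) (hre t)
    rw [hE P hP t] at a2
    have a3 : |(F P t).im| ≤ ‖1 + F P t‖ := by
      have := Complex.abs_im_le_norm (1 + F P t)
      simpa using this
    have a4 : Real.pi / 2 * |(F P t).im| ≤ Real.pi / 2 * ‖1 + F P t‖ :=
      mul_le_mul_of_nonneg_left a3 (by positivity)
    linarith
  obtain ⟨C, hCb⟩ := bound_F P
  have hcn : Continuous (fun t => ‖1 + F P t‖) := (continuous_const.add (cont_F P)).norm
  have hle : ∀ᶠ T : ℝ in atTop, 2 / Real.pi * ((1 / (2 * T)) *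
      ∫ t in (-T)..T, (W P t - (F P t * Complex.log (1 + F P t)).re)) ≤
      (1 / (2 * T)) * ∫ t in (-T)..T, ‖1 + F P t‖ := by
    filter_upwards [eventually_gt_atTop (0 : ℝ)] with T hT
    have b1 : ∫ t in (-T)..T, (W P t - (F P t * Complex.log (1 + F P t)).re) ≤
        ∫ t in (-T)..T, Real.pi / 2 * ‖1 + F P t‖ :=
      intervalIntegral.integral_mono_on (by linarith)
        ((hcW.sub (Complex.continuous_re.comp hcG)).intervalIntegrable _ _)
        ((continuous_const.mul hcn).intervalIntegrable _ _) (fun t _ => hpt t)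
    rw [intervalIntegral.integral_const_mul] at b1
    have hpi := Real.pi_pos
    calc 2 / Real.pi * ((1 / (2 * T)) *
      ∫ t in (-T)..T, (W P t - (F P t * Complex.log (1 + F P t)).re))
        ≤ 2 / Real.pi * ((1 / (2 * T)) * (Real.pi / 2 * ∫ t in (-T)..T, ‖1 + F P t‖)) := by
          gcongr
      _ = (1 / (2 * T)) * ∫ t in (-T)..T, ‖1 + F P t‖ := by
          field_simp
  have hub : ∀ᶠ T : ℝ in atTop, (1 / (2 * T)) * ∫ t in (-T)..T, ‖1 + F P t‖ ≤ C := by
    filter_upwards [eventually_gt_atTop (0 : ℝ)] with T hT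
    have b1 : ∫ t in (-T)..T, ‖1 + F P t‖ ≤ ∫ t in (-T)..T, C :=
      intervalIntegral.integral_mono_on (by linarith) (hcn.intervalIntegrable _ _)
        (continuous_const.intervalIntegrable _ _) (fun t _ => hCb t)
    rw [intervalIntegral.integral_const, smul_eq_mul] at b1
    calc (1 / (2 * T)) * ∫ t in (-T)..T, ‖1 + F P t‖ ≤ (1 / (2 * T)) * ((T - -T) * C) := by
          gcongr
      _ = C := by field_simp; ring
  have h5 := h3.const_mul (2 / Real.pi)
  rw [← h5.limsup_eq]
  exact limsup_le_limsup hle (h5.isBoundedUnder_ge.isCoboundedUnder_le) ⟨C, hub⟩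

end Pool.Agent.H299R5.PS
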